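import Pool.Agent.H372.OddZero

/-!
# Zeros of odd-degree characters on odd-length classes and the Sylow 2-normalizer

Let `p` be a prime, `G` a finite group, `χ` an irreducible complex character of degree prime to
`p` and `g` an element whose conjugacy class has length prime to `p`, with `χ(g) = 0`.  Then, for
every Sylow `p`-subgroup `P`, some element `x` of `C_G(P)` of order prime to `p`, conjugate to a
power of `g`, is not centralised by `N_G(P)`.  In particular `N_G(P)/P` is not abelian and `C_G(P)`
is not a `p`-group.

For `p = 2` this is about the question of the problem: no character of odd degree of a finite group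
`G` vanishes on a class of odd length if `N_G(P)` centralises the elements of odd order of
`C_G(P)`, `P` a Sylow 2-subgroup.
-/

set_option autoImplicit false

open CategoryTheory

namespace Pool.Agent.Results.MP_85dea9_al.SylowNormalizerCriterion

theorem result (p : ℕ) [Fact p.Prime] (G : Type) [Group G] [Finite G] (V : FDRep ℂ G)
    (hV : Simple V) (hdeg : ¬ p ∣ Module.finrank ℂ V) (g : G)
    (hg : ¬ p ∣ Nat.card {h : G // IsConj g h}) (h0 : V.character g = 0) (P : Sylow p G) :
    ∃ x ∈ Subgroup.centralizer (P : Set G), (orderOf x).Coprime p ∧
      (∃ k : ℕ, IsConj (g ^ k) x) ∧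
      ∃ n ∈ Subgroup.normalizer (P : Set G), n * x ≠ x * n := by
  have hpos : Module.finrank ℂ V ≠ 0 := fun h => hdeg (h ▸ dvd_zero p)
  have hnt : Nontrivial V := Module.nontrivial_of_finrank_pos (R := ℂ) (Nat.pos_of_ne_zero hpos)
  exact Pool.Agent.H372.OddZero.main p V.ρ
    (fun W hW hW0 => Pool.Agent.Helper199.RepDim.simple_top V W hW hW0) hdeg P g hg h0

end Pool.Agent.Results.MP_85dea9_al.SylowNormalizerCriterion
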